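import Mathlib

set_option autoImplicit false

open Finset

namespace Pool.Agent.Results.MP_70e206_co.UnionFreeLower

/-- there are `m` subsets of an `n`-element set whose pairwise unions are distinct -/
def DistinctUnions (n m : ℕ) : Prop :=
  ∃ A : Fin m → Finset (Fin n), ∀ i j k l : Fin m, i < j → k < l →
    A i ∪ A j = A k ∪ A l → i = k ∧ j = l

/-- the largest number of subsets of an `n`-element set with pairwise distinct unions -/
noncomputable def f (n : ℕ) : ℕ := sSup {m : ℕ | DistinctUnions n m}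

/-- unions of two different members determine the two members -/
def Good {n : ℕ} (F : Finset (Finset (Fin n))) : Prop :=
  ∀ a ∈ F, ∀ b ∈ F, ∀ c ∈ F, ∀ d ∈ F, a ≠ b → c ≠ d → a ∪ b = c ∪ d →
    (a = c ∧ b = d) ∨ (a = d ∧ b = c)

/-- ambient vector space -/
abbrev VV (n : ℕ) : Type := (Fin n → ZMod 2) × ZMod 2

/-- target of the linear maps -/
abbrev WW (r : ℕ) : Type := Fin r → ZMod 2

/-- indicator vector with an additional coordinate `1` -/
def vec {n : ℕ} (a : Finset (Fin n)) : VV n := (fun i => if i ∈ a then 1 else 0, 1)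

/-- indicator vector with an additional coordinate `0` -/
def dvec {n : ℕ} (e : Finset (Fin n)) : VV n := (fun i => if i ∈ e then 1 else 0, 0)

/-- bad quadruples without linear relation -/
def Q4 (n k : ℕ) : Finset (Fin 4 → Finset (Fin n)) :=
  {p | (∀ j, #(p j) = k) ∧ Function.Injective p ∧ p 0 ∪ p 1 = p 2 ∪ p 3 ∧
    symmDiff (p 0) (p 1) ≠ symmDiff (p 2) (p 3)}

/-- bad quadruples with the linear relation -/
def Q6 (n k : ℕ) : Finset (Fin 4 → Finset (Fin n)) :=
  {p | (∀ j, #(p j) = k) ∧ Function.Injective p ∧ p 0 ∪ p 1 = p 2 ∪ p 3 ∧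
    symmDiff (p 0) (p 1) = symmDiff (p 2) (p 3)}

theorem h70_bdd (n : ℕ) : BddAbove {m : ℕ | DistinctUnions n m} := by
  refine ⟨2^n + 1, ?_⟩
  rintro m ⟨A, hA⟩
  rcases m with _ | t
  · exact Nat.zero_le _
  · have hinj : Function.Injective (fun j : Fin t => A 0 ∪ A j.succ) := by
      intro j l h
      have := (hA 0 j.succ 0 l.succ (Fin.succ_pos j) (Fin.succ_pos l) h).2
      exact Fin.succ_injective _ this
    have := Fintype.card_le_of_injective _ hinj
    simp only [Fintype.card_fin, Fintype.card_finset] at this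
    omega

theorem f_ge (n : ℕ) (F : Finset (Finset (Fin n))) (hF : Good F) : #F ≤ f n := by
  apply le_csSup (h70_bdd n)
  let e := F.equivFin.symm
  refine ⟨fun i => (e i : Finset (Fin n)), ?_⟩
  intro i j k l hij hkl h
  have hinj : ∀ a b : Fin #F, (e a : Finset (Fin n)) = (e b : Finset (Fin n)) → a = b := by
    intro a b hab
    exact e.injective (Subtype.ext hab)
  have h1 : (e i : Finset (Fin n)) ≠ (e j : Finset (Fin n)) := fun h => hij.ne (hinj _ _ h)
  have h2 : (e k : Finset (Fin n)) ≠ (e l : Finset (Fin n)) := fun h => hkl.ne (hinj _ _ h)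
  rcases hF _ (e i).2 _ (e j).2 _ (e k).2 _ (e l).2 h1 h2 h with ⟨a, b⟩ | ⟨a, b⟩
  · exact ⟨hinj _ _ a, hinj _ _ b⟩
  · exfalso
    have a' := hinj _ _ a
    have b' := hinj _ _ b
    subst a' b'
    exact absurd hij (not_lt.mpr hkl.le)

theorem f_mono : Monotone f := by
  apply monotone_nat_of_le_succ
  intro n
  apply csSup_le_csSup (h70_bdd (n+1))
  · exact ⟨0, fun i => i.elim0, fun i => i.elim0⟩
  · rintro m ⟨A, hA⟩
    refine ⟨fun i => (A i).map Fin.castSuccEmb, ?_⟩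
    intro i j k l hij hkl h
    simp only [← Finset.map_union] at h
    exact hA i j k l hij hkl (Finset.map_injective _ h)

theorem hyp_cnt {ι : Type} [Fintype ι] [DecidableEq ι] (s : ℕ) (z : Fin s) (P : Finset ι) :
    s ^ #P * #(univ.filter (fun χ : ι → Fin s => ∀ i ∈ P, χ i = z)) = s ^ Fintype.card ι := by
  have h1 : (univ.filter (fun χ : ι → Fin s => ∀ i ∈ P, χ i = z))
      = Fintype.piFinset (fun i => if i ∈ P then ({z} : Finset (Fin s)) else univ) := by
    ext χ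
    simp only [mem_filter, mem_univ, true_and, Fintype.mem_piFinset]
    constructor
    · intro h i
      by_cases hi : i ∈ P
      · simp [hi, h i hi]
      · simp [hi]
    · intro h i hi
      have := h i
      simpa [hi] using this
  rw [h1, Fintype.card_piFinset]
  have h2 : ∀ i, #(if i ∈ P then ({z} : Finset (Fin s)) else univ) = if i ∈ P then 1 else s := by
    intro i
    split_ifs <;> simp
  simp only [h2]
  rw [Finset.prod_ite, prod_const_one, one_mul, prod_const, ← pow_add]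
  congr 1
  have h3 : (univ.filter (fun x => ¬ x ∈ P)) = Pᶜ := by ext; simp
  rw [h3, card_compl]
  have := card_le_univ P
  omega

theorem hyp {α : Type} [DecidableEq α] (G : Finset α) (E : Finset (Fin 4 → α))
    (hE : ∀ p ∈ E, Function.Injective p) (s : ℕ) (hs : 0 < s) :
    ∃ F ⊆ G, ((s : ℝ) ^ 3 * #G - #E ≤ (s : ℝ) ^ 4 * #F) ∧ ∀ p ∈ E, ¬ ∀ i, p i ∈ F := by
  classical
  obtain ⟨z⟩ : Nonempty (Fin s) := ⟨⟨0, hs⟩⟩
  have hs0 : (0:ℝ) < s := by exact_mod_cast hs
  -- the random set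
  obtain ⟨X, hX⟩ : ∃ X : ((x : G) → Fin s) → Finset α,
      X = fun χ => (univ.filter (fun x : G => χ x = z)).map (Function.Embedding.subtype _) := ⟨_, rfl⟩
  have hXc : ∀ χ, #(X χ) = #(univ.filter (fun x : G => χ x = z)) := by
    intro χ
    rw [hX]
    simp only [card_map]
  have hXm : ∀ χ a, a ∈ X χ ↔ ∃ h : a ∈ G, χ ⟨a, h⟩ = z := by
    intro χ a
    rw [hX]
    simp
  obtain ⟨qd, hqd⟩ : ∃ qd : ((x : G) → Fin s) → Finset (Fin 4 → α),
      qd = fun χ => E.filter (fun p => ∀ i, p i ∈ X χ) := ⟨_, rfl⟩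
  have hT : (0:ℝ) < (s:ℝ) ^ Fintype.card G := by positivity
  -- sum of sizes
  have hsum1 : (s:ℝ) ^ 4 * ∑ χ : (x : G) → Fin s, (#(X χ) : ℝ)
      = (s:ℝ) ^ 3 * #G * (s:ℝ) ^ Fintype.card G := by
    have e1 : ∑ χ : (x : G) → Fin s, (#(X χ) : ℝ)
        = ∑ x : G, (#(univ.filter (fun χ : (x : G) → Fin s => χ x = z)) : ℝ) := by
      simp only [hXc, card_filter]
      push_cast
      rw [sum_comm]
    have e2 : ∀ x : G, (s:ℝ) * (#(univ.filter (fun χ : (x : G) → Fin s => χ x = z)) : ℝ)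
        = (s:ℝ) ^ Fintype.card G := by
      intro x
      have h := hyp_cnt s z ({x} : Finset G)
      rw [card_singleton, pow_one] at h
      simp only [mem_singleton, forall_eq] at h
      exact_mod_cast h
    have e3 : (s:ℝ) * ∑ χ : (x : G) → Fin s, (#(X χ) : ℝ) = #G * (s:ℝ) ^ Fintype.card G := by
      rw [e1, mul_sum, sum_congr rfl (fun x _ => e2 x), sum_const, nsmul_eq_mul]
      simp
    calc (s:ℝ) ^ 4 * ∑ χ : (x : G) → Fin s, (#(X χ) : ℝ)
        = (s:ℝ) ^ 3 * ((s:ℝ) * ∑ χ : (x : G) → Fin s, (#(X χ) : ℝ)) := by ring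
      _ = _ := by rw [e3]; ring
  have hsum2 : (s:ℝ) ^ 4 * ∑ χ : (x : G) → Fin s, (#(qd χ) : ℝ)
      ≤ #E * (s:ℝ) ^ Fintype.card G := by
    have e1 : ∑ χ : (x : G) → Fin s, (#(qd χ) : ℝ)
        = ∑ p ∈ E, (#(univ.filter (fun χ : (x : G) → Fin s => ∀ i, p i ∈ X χ)) : ℝ) := by
      simp only [hqd, card_filter]
      push_cast
      rw [sum_comm]
    rw [e1, mul_sum, ← nsmul_eq_mul]
    refine sum_le_card_nsmul E _ _ ?_
    intro p hp
    by_cases hall : ∀ i, p i ∈ G
    · obtain ⟨P, hP⟩ : ∃ P : Finset G, P = univ.image (fun i : Fin 4 => (⟨p i, hall i⟩ : G)) := ⟨_, rfl⟩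
      have hPc : #P = 4 := by
        rw [hP, card_image_of_injective]
        · simp
        · intro i j hij
          exact hE p hp (Subtype.mk.inj hij)
      have h := hyp_cnt s z P
      rw [hPc] at h
      have h4 : (univ.filter (fun χ : (x : G) → Fin s => ∀ i, p i ∈ X χ))
          = univ.filter (fun χ : (x : G) → Fin s => ∀ y ∈ P, χ y = z) := by
        apply filter_congr
        intro χ _
        rw [hP]
        constructor
        · intro hc y hy
          obtain ⟨i, _, rfl⟩ := mem_image.1 hy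
          obtain ⟨h5, h6⟩ := (hXm χ (p i)).1 (hc i)
          exact h6
        · intro hc i
          exact (hXm χ (p i)).2 ⟨hall i, hc _ (mem_image_of_mem _ (mem_univ i))⟩
      rw [h4]
      exact le_of_eq (by exact_mod_cast h)
    · have h4 : (univ.filter (fun χ : (x : G) → Fin s => ∀ i, p i ∈ X χ)) = ∅ := by
        apply filter_eq_empty_iff.2
        intro χ _ hc
        apply hall
        intro i
        exact ((hXm χ (p i)).1 (hc i)).1
      rw [h4, card_empty]
      simp only [Nat.cast_zero, mul_zero]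
      exact hT.le
  -- choose χ
  have hex : ∃ χ ∈ (univ : Finset ((x : G) → Fin s)),
      ((s : ℝ) ^ 3 * #G - #E) ≤ (s:ℝ) ^ 4 * ((#(X χ) : ℝ) - #(qd χ)) := by
    apply exists_le_of_sum_le
    · haveI : Nonempty (Fin s) := ⟨z⟩
      exact univ_nonempty
    · rw [sum_const, nsmul_eq_mul, ← mul_sum, sum_sub_distrib, mul_sub ((s:ℝ) ^ 4), hsum1]
      have hcard : ((#(univ : Finset ((x : G) → Fin s)) : ℕ) : ℝ) = (s:ℝ) ^ Fintype.card G := by
        rw [card_univ, Fintype.card_fun, Fintype.card_fin]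
        push_cast
        rfl
      rw [hcard]
      nlinarith [hsum2]
  obtain ⟨χ, _, hχ⟩ := hex
  refine ⟨X χ \ (qd χ).image (fun p => p 0), ?_, ?_, ?_⟩
  · intro a ha
    rw [mem_sdiff] at ha
    exact ((hXm χ a).1 ha.1).1
  · refine hχ.trans ?_
    have h1 : #(X χ) ≤ #(X χ \ (qd χ).image (fun p => p 0)) + #((qd χ).image (fun p => p 0)) :=
      card_le_card_sdiff_add_card
    have h2 : #((qd χ).image (fun p => p 0)) ≤ #(qd χ) := card_image_le
    have h3 : (#(X χ) : ℝ) ≤ #(X χ \ (qd χ).image (fun p => p 0)) + #(qd χ) := by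
      exact_mod_cast h1.trans (Nat.add_le_add_left h2 _)
    have h4 : (0:ℝ) ≤ (s:ℝ) ^ 4 := by positivity
    exact mul_le_mul_of_nonneg_left (by linarith) h4
  · intro p hp hall
    have h1 : p ∈ qd χ := by
      rw [hqd]
      rw [mem_filter]
      exact ⟨hp, fun i => (mem_sdiff.1 (hall i)).1⟩
    exact (mem_sdiff.1 (hall 0)).2 (mem_image_of_mem (fun p : Fin 4 → α => p 0) h1)

theorem unif {V W : Type} [AddCommGroup V] [Module (ZMod 2) V] [Finite V] [AddCommGroup W]
    [Module (ZMod 2) W] [Fintype W] [Fintype (V →ₗ[ZMod 2] W)] [DecidableEq W] (j : ℕ) (v : Fin j → V)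
    (hv : LinearIndependent (ZMod 2) v) :
    #{g : V →ₗ[ZMod 2] W | ∀ i, g (v i) = 0} * Fintype.card W ^ j
      = Fintype.card (V →ₗ[ZMod 2] W) := by
  classical
  have : Fact (Nat.Prime 2) := ⟨Nat.prime_two⟩
  let Φ : (V →ₗ[ZMod 2] W) →ₗ[ZMod 2] (Fin j → W) :=
    { toFun := fun g i => g (v i)
      map_add' := fun _ _ => rfl
      map_smul' := fun _ _ => rfl }
  have hsurj : Function.Surjective Φ := by
    intro w
    let b := Module.Basis.span hv
    obtain ⟨g, hg⟩ := LinearMap.exists_extend (b.constr (ZMod 2) w)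
    refine ⟨g, ?_⟩
    funext i
    have h1 : g (b i : V) = w i := by
      have h2 := LinearMap.congr_fun hg (b i)
      rw [Module.Basis.constr_basis] at h2
      exact h2
    rw [Module.Basis.span_apply] at h1
    exact h1
  have h1 := Submodule.card_eq_card_quotient_mul_card (LinearMap.ker Φ)
  have h2 : Nat.card ((V →ₗ[ZMod 2] W) ⧸ LinearMap.ker Φ) = Fintype.card W ^ j := by
    rw [Nat.card_congr (Φ.quotKerEquivOfSurjective hsurj).toEquiv, Nat.card_eq_fintype_card,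
      Fintype.card_fun, Fintype.card_fin]
  have h3 : Nat.card (LinearMap.ker Φ) = #{g : V →ₗ[ZMod 2] W | ∀ i, g (v i) = 0} := by
    rw [← Fintype.card_subtype, ← Nat.card_eq_fintype_card]
    refine Nat.card_congr (Equiv.subtypeEquivRight ?_)
    intro g
    rw [LinearMap.mem_ker]
    exact funext_iff
  rw [h2, h3, Nat.card_eq_fintype_card] at h1
  rw [h1]

theorem zmod2_cases : ∀ x : ZMod 2, x = 0 ∨ x = 1 := by decide

theorem ind_eq {n : ℕ} {a b : Finset (Fin n)}
    (h : ∀ i, (if i ∈ a then (1 : ZMod 2) else 0) + (if i ∈ b then 1 else 0) = 0) : a = b := by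
  ext i
  have := h i
  by_cases h1 : i ∈ a <;> by_cases h2 : i ∈ b <;> simp [h1, h2] at this ⊢

theorem ind_eq4 {n : ℕ} {a b c d : Finset (Fin n)}
    (h : ∀ i, (if i ∈ a then (1 : ZMod 2) else 0) + (if i ∈ b then 1 else 0) +
      (if i ∈ c then 1 else 0) + (if i ∈ d then 1 else 0) = 0) : symmDiff a b = symmDiff c d := by
  have e3 : (1 : ZMod 2) + 1 + 1 ≠ 0 := by decide
  ext i
  have := h i
  rw [Finset.mem_symmDiff, Finset.mem_symmDiff]
  by_cases h1 : i ∈ a <;> by_cases h2 : i ∈ b <;> by_cases h3 : i ∈ c <;> by_cases h4 : i ∈ d <;>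
    simp only [h1, h2, h3, h4, if_true, if_false, not_true, not_false_iff, and_true, and_false,
      or_false, false_or, iff_true, iff_false, or_true, true_or, and_self, or_self] at this ⊢ <;>
    revert this <;> decide

theorem li2 {n : ℕ} (a e : Finset (Fin n)) (he : e.Nonempty) :
    LinearIndependent (ZMod 2) ![vec a, dvec e] := by
  rw [LinearIndependent.pair_iff]
  intro s t h
  have h2 := congrArg Prod.snd h
  have hs : s = 0 := by simpa [vec, dvec] using h2
  subst hs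
  obtain ⟨i, hi⟩ := he
  have h1 := congrFun (congrArg Prod.fst h) i
  have ht : t = 0 := by simpa [vec, dvec, hi] using h1
  exact ⟨rfl, ht⟩

theorem li3 {n : ℕ} (p : Fin 3 → Finset (Fin n)) (hp : Function.Injective p) :
    LinearIndependent (ZMod 2) (fun i => vec (p i)) := by
  rw [Fintype.linearIndependent_iff]
  intro g h
  simp only [Fin.sum_univ_three] at h
  have h2 : g 0 + g 1 + g 2 = 0 := by
    have := congrArg Prod.snd h
    simpa [vec] using this
  have h1 : ∀ i, g 0 * (if i ∈ p 0 then 1 else 0) + g 1 * (if i ∈ p 1 then 1 else 0) +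
      g 2 * (if i ∈ p 2 then 1 else 0) = 0 := by
    intro i
    have := congrFun (congrArg Prod.fst h) i
    simpa [vec] using this
  have n01 : p 0 ≠ p 1 := fun e => absurd (hp e) (by decide)
  have n02 : p 0 ≠ p 2 := fun e => absurd (hp e) (by decide)
  have n12 : p 1 ≠ p 2 := fun e => absurd (hp e) (by decide)
  have e3 : (1 : ZMod 2) + 1 + 1 ≠ 0 := by decide
  have key : g 0 = 0 ∧ g 1 = 0 ∧ g 2 = 0 := by
    rcases zmod2_cases (g 0) with a0 | a0 <;> rcases zmod2_cases (g 1) with a1 | a1 <;>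
      rcases zmod2_cases (g 2) with a2 | a2 <;>
      simp only [a0, a1, a2, zero_mul, one_mul, zero_add, add_zero] at h1 h2 ⊢
    · exact ⟨trivial, trivial, trivial⟩
    · exact absurd h2 (by decide)
    · exact absurd h2 (by decide)
    · exact absurd (ind_eq h1) n12
    · exact absurd h2 (by decide)
    · exact absurd (ind_eq h1) n02
    · exact absurd (ind_eq h1) n01
    · exact absurd h2 (by decide)
  intro i
  fin_cases i
  · exact key.1
  · exact key.2.1
  · exact key.2.2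

theorem li4 {n : ℕ} (p : Fin 4 → Finset (Fin n)) (hp : Function.Injective p)
    (h : symmDiff (p 0) (p 1) ≠ symmDiff (p 2) (p 3)) :
    LinearIndependent (ZMod 2) (fun i => vec (p i)) := by
  rw [Fintype.linearIndependent_iff]
  intro g hg
  simp only [Fin.sum_univ_four] at hg
  have h2 : g 0 + g 1 + g 2 + g 3 = 0 := by
    have := congrArg Prod.snd hg
    simpa [vec] using this
  have h1 : ∀ i, g 0 * (if i ∈ p 0 then 1 else 0) + g 1 * (if i ∈ p 1 then 1 else 0) +
      g 2 * (if i ∈ p 2 then 1 else 0) + g 3 * (if i ∈ p 3 then 1 else 0) = 0 := by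
    intro i
    have := congrFun (congrArg Prod.fst hg) i
    simpa [vec] using this
  have n01 : p 0 ≠ p 1 := fun e => absurd (hp e) (by decide)
  have n02 : p 0 ≠ p 2 := fun e => absurd (hp e) (by decide)
  have n03 : p 0 ≠ p 3 := fun e => absurd (hp e) (by decide)
  have n12 : p 1 ≠ p 2 := fun e => absurd (hp e) (by decide)
  have n13 : p 1 ≠ p 3 := fun e => absurd (hp e) (by decide)
  have n23 : p 2 ≠ p 3 := fun e => absurd (hp e) (by decide)
  have key : g 0 = 0 ∧ g 1 = 0 ∧ g 2 = 0 ∧ g 3 = 0 := by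
    rcases zmod2_cases (g 0) with a0 | a0 <;> rcases zmod2_cases (g 1) with a1 | a1 <;>
      rcases zmod2_cases (g 2) with a2 | a2 <;> rcases zmod2_cases (g 3) with a3 | a3 <;>
      simp only [a0, a1, a2, a3, zero_mul, one_mul, zero_add, add_zero] at h1 h2 ⊢
    · exact ⟨trivial, trivial, trivial, trivial⟩
    · exact absurd h2 (by decide)
    · exact absurd h2 (by decide)
    · exact absurd (ind_eq h1) n23
    · exact absurd h2 (by decide)
    · exact absurd (ind_eq h1) n13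
    · exact absurd (ind_eq h1) n12
    · exact absurd h2 (by decide)
    · exact absurd h2 (by decide)
    · exact absurd (ind_eq h1) n03
    · exact absurd (ind_eq h1) n02
    · exact absurd h2 (by decide)
    · exact absurd (ind_eq h1) n01
    · exact absurd h2 (by decide)
    · exact absurd h2 (by decide)
    · exact absurd (ind_eq4 h1) h
  intro i
  fin_cases i
  · exact key.1
  · exact key.2.1
  · exact key.2.2.1
  · exact key.2.2.2

theorem dvec_symmDiff {n : ℕ} (b c : Finset (Fin n)) : dvec (symmDiff b c) = vec b + vec c := by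
  have e2 : (1 : ZMod 2) + 1 = 0 := by decide
  refine Prod.ext ?_ ?_
  · funext i
    simp only [dvec, vec, Prod.fst_add, Pi.add_apply, Finset.mem_symmDiff]
    by_cases h1 : i ∈ b <;> by_cases h2 : i ∈ c <;> simp [h1, h2, e2]
  · simp only [dvec, vec, Prod.snd_add]
    exact e2.symm

theorem cnt (n k : ℕ) (y : ℝ) (hy : 0 < y) (R : Finset (Fin 4 → Bool))
    (Q : Finset (Fin 4 → Finset (Fin n)))
    (hQ : ∀ p ∈ Q, (∀ j, #(p j) = k) ∧ ∀ i : Fin n, (fun j => decide (i ∈ p j)) ∈ R) :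
    (#Q : ℝ) * y ^ (4 * k) ≤ (∑ x ∈ R, y ^ #{j | x j = true}) ^ n := by
  classical
  have hinj : Function.Injective
      (fun (p : Fin 4 → Finset (Fin n)) => (fun (i : Fin n) (j : Fin 4) => decide (i ∈ p j))) := by
    intro p q h
    funext j
    ext i
    have h1 := congrFun (congrFun h i) j
    simpa using h1
  have hterm : ∀ p ∈ Q, ∏ i : Fin n, y ^ #{j : Fin 4 | decide (i ∈ p j) = true} = y ^ (4 * k) := by
    intro p hp
    rw [Finset.prod_pow_eq_pow_sum]
    congr 1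
    have h1 : ∀ i : Fin n, #{j : Fin 4 | decide (i ∈ p j) = true}
        = ∑ j : Fin 4, if i ∈ p j then 1 else 0 := by
      intro i
      rw [Finset.card_filter]
      simp
    simp_rw [h1]
    rw [Finset.sum_comm]
    have h2 : ∀ j : Fin 4, (∑ i : Fin n, if i ∈ p j then 1 else 0) = k := by
      intro j
      rw [← (hQ p hp).1 j]
      simp
    simp_rw [h2]
    simp
  have hR : (∑ x ∈ R, y ^ #{j | x j = true}) ^ n
      = ∑ g ∈ Fintype.piFinset (fun _ : Fin n => R), ∏ i, y ^ #{j | g i j = true} := by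
    have h := Finset.prod_univ_sum (fun _ : Fin n => R)
      (fun (_ : Fin n) (x : Fin 4 → Bool) => y ^ #{j | x j = true})
    rw [← h]
    simp
  rw [hR]
  calc (#Q : ℝ) * y ^ (4 * k) = ∑ p ∈ Q, ∏ i : Fin n, y ^ #{j : Fin 4 | decide (i ∈ p j) = true} := by
        rw [Finset.sum_congr rfl hterm]
        simp
    _ = ∑ g ∈ Q.image (fun (p : Fin 4 → Finset (Fin n)) =>
          (fun (i : Fin n) (j : Fin 4) => decide (i ∈ p j))),
          ∏ i, y ^ #{j | g i j = true} := by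
        rw [Finset.sum_image (fun p _ q _ h => hinj h)]
    _ ≤ ∑ g ∈ Fintype.piFinset (fun _ : Fin n => R), ∏ i, y ^ #{j | g i j = true} := by
        apply Finset.sum_le_sum_of_subset_of_nonneg
        · intro g hg
          rw [Finset.mem_image] at hg
          obtain ⟨p, hp, rfl⟩ := hg
          rw [Fintype.mem_piFinset]
          intro i
          exact (hQ p hp).2 i
        · intro g _ _
          exact Finset.prod_nonneg (fun i _ => by positivity)

theorem wsum (R : Finset (Fin 4 → Bool)) (y : ℝ) :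
    ∑ x ∈ R, y ^ #{j | x j = true} =
      ∑ w ∈ Finset.range 5, (#(R.filter (fun x => #{j | x j = true} = w)) : ℝ) * y ^ w := by
  rw [← Finset.sum_fiberwise_of_maps_to (t := Finset.range 5)
    (g := fun x : Fin 4 → Bool => #{j | x j = true})]
  · refine Finset.sum_congr rfl ?_
    intro w _
    have : ∀ x ∈ R.filter (fun x => #{j | x j = true} = w), y ^ #{j | x j = true} = y ^ w := by
      intro x hx
      rw [(Finset.mem_filter.1 hx).2]
    rw [Finset.sum_congr rfl this, Finset.sum_const, nsmul_eq_mul]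
  · intro x _
    rw [Finset.mem_range]
    have : #{j | x j = true} ≤ #(Finset.univ : Finset (Fin 4)) := Finset.card_filter_le _ _
    simp at this
    omega

/-- allowed patterns -/
def R4 : Finset (Fin 4 → Bool) := Finset.univ.filter (fun x => (x 0 || x 1) = (x 2 || x 3))

/-- allowed patterns with the linear relation -/
def R6 : Finset (Fin 4 → Bool) :=
  Finset.univ.filter (fun x => (x 0 || x 1) = (x 2 || x 3) ∧ (xor (x 0) (x 1)) = (xor (x 2) (x 3)))

theorem cnt4 (n k : ℕ) (y : ℝ) (hy : 0 < y) :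
    (#(Q4 n k) : ℝ) * y ^ (4 * k) ≤ (1 + (2 * y + y ^ 2) ^ 2) ^ n := by
  have h := cnt n k y hy R4 (Q4 n k) ?_
  · have hs : (∑ x ∈ R4, y ^ #{j | x j = true}) = 1 + (2 * y + y ^ 2) ^ 2 := by
      rw [wsum]
      have c0 : #(R4.filter (fun x => #{j | x j = true} = 0)) = 1 := by decide
      have c1 : #(R4.filter (fun x => #{j | x j = true} = 1)) = 0 := by decide
      have c2 : #(R4.filter (fun x => #{j | x j = true} = 2)) = 4 := by decide
      have c3 : #(R4.filter (fun x => #{j | x j = true} = 3)) = 4 := by decide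
      have c4 : #(R4.filter (fun x => #{j | x j = true} = 4)) = 1 := by decide
      simp only [Finset.sum_range_succ, Finset.sum_range_zero, c0, c1, c2, c3, c4]
      push_cast
      ring
    rw [hs] at h
    exact h
  · intro p hp
    simp only [Q4, Finset.mem_filter, Finset.mem_univ, true_and] at hp
    refine ⟨hp.1, ?_⟩
    intro i
    have h1 : i ∈ p 0 ∪ p 1 ↔ i ∈ p 2 ∪ p 3 := by rw [hp.2.2.1]
    simp only [Finset.mem_union] at h1
    simp only [R4, Finset.mem_filter, Finset.mem_univ, true_and]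
    rw [← Bool.decide_or, ← Bool.decide_or]
    exact decide_eq_decide.2 h1

theorem cnt6 (n k : ℕ) (y : ℝ) (hy : 0 < y) :
    (#(Q6 n k) : ℝ) * y ^ (4 * k) ≤ (1 + 4 * y ^ 2 + y ^ 4) ^ n := by
  have h := cnt n k y hy R6 (Q6 n k) ?_
  · have hs : (∑ x ∈ R6, y ^ #{j | x j = true}) = 1 + 4 * y ^ 2 + y ^ 4 := by
      rw [wsum]
      have c0 : #(R6.filter (fun x => #{j | x j = true} = 0)) = 1 := by decide
      have c1 : #(R6.filter (fun x => #{j | x j = true} = 1)) = 0 := by decide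
      have c2 : #(R6.filter (fun x => #{j | x j = true} = 2)) = 4 := by decide
      have c3 : #(R6.filter (fun x => #{j | x j = true} = 3)) = 0 := by decide
      have c4 : #(R6.filter (fun x => #{j | x j = true} = 4)) = 1 := by decide
      simp only [Finset.sum_range_succ, Finset.sum_range_zero, c0, c1, c2, c3, c4]
      push_cast
      ring
    rw [hs] at h
    exact h
  · intro p hp
    simp only [Q6, Finset.mem_filter, Finset.mem_univ, true_and] at hp
    refine ⟨hp.1, ?_⟩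
    intro i
    have h1 : i ∈ p 0 ∪ p 1 ↔ i ∈ p 2 ∪ p 3 := by rw [hp.2.2.1]
    simp only [Finset.mem_union] at h1
    have h2 : i ∈ symmDiff (p 0) (p 1) ↔ i ∈ symmDiff (p 2) (p 3) := by rw [hp.2.2.2]
    simp only [Finset.mem_symmDiff] at h2
    simp only [R6, Finset.mem_filter, Finset.mem_univ, true_and]
    by_cases a0 : i ∈ p 0 <;> by_cases a1 : i ∈ p 1 <;> by_cases a2 : i ∈ p 2 <;>
      by_cases a3 : i ∈ p 3 <;> simp_all

theorem bin_step (n j : ℕ) (hj : j < n) :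
    (n.choose (j + 1) * 8 ^ (j + 1) * 17 ^ (n - (j + 1))) * (17 * (j + 1)) =
      (n.choose j * 8 ^ j * 17 ^ (n - j)) * (8 * (n - j)) := by
  have h1 : n.choose (j + 1) * (j + 1) = n.choose j * (n - j) := Nat.choose_succ_right_eq n j
  have h2 : 17 ^ (n - j) = 17 ^ (n - (j + 1)) * 17 := by
    rw [← pow_succ]
    congr 1
    omega
  calc (n.choose (j + 1) * 8 ^ (j + 1) * 17 ^ (n - (j + 1))) * (17 * (j + 1))
      = (n.choose (j + 1) * (j + 1)) * (8 ^ (j + 1) * (17 ^ (n - (j + 1)) * 17)) := by ring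
    _ = (n.choose j * (n - j)) * (8 ^ (j + 1) * 17 ^ (n - j)) := by rw [h1, h2]
    _ = (n.choose j * 8 ^ j * 17 ^ (n - j)) * (8 * (n - j)) := by
        rw [pow_succ 8 j]
        ring

theorem bin_up (t j : ℕ) (hj : j < 8 * t) :
    (25 * t).choose j * 8 ^ j * 17 ^ (25 * t - j) ≤
      (25 * t).choose (j + 1) * 8 ^ (j + 1) * 17 ^ (25 * t - (j + 1)) := by
  have h := bin_step (25 * t) j (by omega)
  have h1 : 17 * (j + 1) ≤ 8 * (25 * t - j) := by omega
  have h2 := Nat.mul_le_mul_left ((25 * t).choose (j + 1) * 8 ^ (j + 1) * 17 ^ (25 * t - (j + 1))) h1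
  rw [h] at h2
  exact Nat.le_of_mul_le_mul_right h2 (by omega)

theorem bin_down (t j : ℕ) (hj : 8 * t ≤ j) (hj2 : j < 25 * t) :
    (25 * t).choose (j + 1) * 8 ^ (j + 1) * 17 ^ (25 * t - (j + 1)) ≤
      (25 * t).choose j * 8 ^ j * 17 ^ (25 * t - j) := by
  have h := bin_step (25 * t) j hj2
  have h1 : 8 * (25 * t - j) ≤ 17 * (j + 1) := by omega
  have h2 := Nat.mul_le_mul_left ((25 * t).choose j * 8 ^ j * 17 ^ (25 * t - j)) h1
  rw [← h] at h2
  exact Nat.le_of_mul_le_mul_right h2 (by omega)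

theorem bin_max (t j : ℕ) (hj : j ≤ 25 * t) :
    (25 * t).choose j * 8 ^ j * 17 ^ (25 * t - j) ≤
      (25 * t).choose (8 * t) * 8 ^ (8 * t) * 17 ^ (25 * t - 8 * t) := by
  rcases le_total j (8 * t) with h | h
  · have key : ∀ d, ∀ j, j + d = 8 * t → (25 * t).choose j * 8 ^ j * 17 ^ (25 * t - j) ≤
        (25 * t).choose (8 * t) * 8 ^ (8 * t) * 17 ^ (25 * t - 8 * t) := by
      intro d
      induction d with
      | zero =>
        intro j hj
        have : j = 8 * t := by omega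
        rw [this]
      | succ d ih =>
        intro j hj
        exact (bin_up t j (by omega)).trans (ih (j + 1) (by omega))
    exact key (8 * t - j) j (by omega)
  · have key : ∀ d, 8 * t + d ≤ 25 * t →
        (25 * t).choose (8 * t + d) * 8 ^ (8 * t + d) * 17 ^ (25 * t - (8 * t + d)) ≤
        (25 * t).choose (8 * t) * 8 ^ (8 * t) * 17 ^ (25 * t - 8 * t) := by
      intro d
      induction d with
      | zero =>
        intro _
        exact le_refl _
      | succ d ih =>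
        intro hd
        exact (bin_down t (8 * t + d) (by omega) (by omega)).trans (ih (by omega))
    have h2 := key (j - 8 * t) (by omega)
    have e : 8 * t + (j - 8 * t) = j := by omega
    rwa [e] at h2

theorem bin_nat (t : ℕ) : 25 ^ (25 * t) ≤
    (25 * t + 1) * ((25 * t).choose (8 * t) * 8 ^ (8 * t) * 17 ^ (17 * t)) := by
  have h0 : (25 : ℕ) ^ (25 * t) = (8 + 17) ^ (25 * t) := by norm_num
  rw [h0, add_pow]
  have h1 : ∀ j ∈ Finset.range (25 * t + 1), 8 ^ j * 17 ^ (25 * t - j) * (25 * t).choose j ≤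
      (25 * t).choose (8 * t) * 8 ^ (8 * t) * 17 ^ (25 * t - 8 * t) := by
    intro j hj
    have hj2 : j ≤ 25 * t := by
      have := Finset.mem_range.1 hj
      omega
    have e : 8 ^ j * 17 ^ (25 * t - j) * (25 * t).choose j =
        (25 * t).choose j * 8 ^ j * 17 ^ (25 * t - j) := by ring
    rw [e]
    exact bin_max t j hj2
  have h2 := Finset.sum_le_card_nsmul _ _ _ h1
  rw [Finset.card_range, smul_eq_mul] at h2
  have e2 : 25 * t - 8 * t = 17 * t := by omega
  rw [e2] at h2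
  exact h2

theorem bin (t : ℕ) : (25 : ℝ) ^ (25 * t) ≤
    (25 * t + 1) * ((25 * t).choose (8 * t) : ℝ) * 8 ^ (8 * t) * 17 ^ (17 * t) := by
  have h := bin_nat t
  have h2 : ((25 ^ (25 * t) : ℕ) : ℝ) ≤
      (((25 * t + 1) * ((25 * t).choose (8 * t) * 8 ^ (8 * t) * 17 ^ (17 * t)) : ℕ) : ℝ) := by
    exact_mod_cast h
  push_cast at h2
  refine h2.trans (le_of_eq ?_)
  ring

theorem lin_lt (ρ C : ℝ) (hρ : 1 < ρ) : ∀ᶠ t : ℕ in Filter.atTop, C * (25 * (t:ℝ) + 1) < ρ ^ t := by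
  have h1 := tendsto_pow_const_div_const_pow_of_one_lt 1 hρ
  have h0 := tendsto_pow_const_div_const_pow_of_one_lt 0 hρ
  have h2 : Filter.Tendsto (fun n : ℕ => C * 25 * ((n:ℝ)^1 / ρ^n) + C * ((n:ℝ)^0 / ρ^n)) Filter.atTop (nhds (C * 25 * 0 + C * 0)) :=
    (h1.const_mul _).add (h0.const_mul _)
  have h3 : ∀ᶠ n : ℕ in Filter.atTop, C * 25 * ((n:ℝ)^1 / ρ^n) + C * ((n:ℝ)^0 / ρ^n) < 1 :=
    h2.eventually_lt_const (by norm_num)
  filter_upwards [h3] with n hn
  have hp : 0 < ρ ^ n := by positivity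
  have : (C * (25 * (n:ℝ) + 1)) / ρ^n < 1 := by
    calc (C * (25 * (n:ℝ) + 1)) / ρ^n = C * 25 * ((n:ℝ)^1 / ρ^n) + C * ((n:ℝ)^0 / ρ^n) := by ring
      _ < 1 := hn
  rwa [div_lt_one hp] at this

theorem fin (ff : ℕ → ℕ) (hmono : Monotone ff)
    (h : ∀ t : ℕ, 0 < t → ∃ B N4 N6 : ℝ, 0 < B ∧
      (25 : ℝ) ^ (25 * t) ≤ (25 * t + 1) * B * 8 ^ (8 * t) * 17 ^ (17 * t) ∧
      N4 * (4 / 9) ^ (4 * (8 * t)) ≤ (1 + (2 * (4 / 9) + (4 / 9) ^ 2) ^ 2) ^ (25 * t) ∧
      N6 * (4 / 7) ^ (4 * (8 * t)) ≤ (1 + 4 * (4 / 7) ^ 2 + (4 / 7) ^ 4) ^ (25 * t) ∧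
      (8 * N4 ≤ (81 ^ t) ^ 3 * B * (2 ^ (8 * t + 1)) ^ 3 →
       8 * N6 ≤ (81 ^ t) ^ 3 * B * (2 ^ (8 * t + 1)) ^ 2 →
        B ≤ 4 * 81 ^ t * 2 ^ (8 * t + 1) * (ff (25 * t) : ℝ))) :
    ∀ᶠ n : ℕ in Filter.atTop, (1 + 0.2575 : ℝ) ^ n < (ff n : ℝ) := by
  obtain ⟨τ, hτ⟩ : ∃ τ : ℝ, τ = 25 ^ 25 / (8 ^ 8 * 17 ^ 17) := ⟨_, rfl⟩
  obtain ⟨c4, hc4⟩ : ∃ c4 : ℝ, c4 = (1 + (2 * (4 / 9) + (4 / 9) ^ 2) ^ 2) ^ 25 / (4 / 9) ^ 32 := ⟨_, rfl⟩
  obtain ⟨c6, hc6⟩ : ∃ c6 : ℝ, c6 = (1 + 4 * (4 / 7) ^ 2 + (4 / 7) ^ 4) ^ 25 / (4 / 7) ^ 32 := ⟨_, rfl⟩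
  have hτ0 : 0 < τ := by rw [hτ]; positivity
  have hc40 : 0 < c4 := by rw [hc4]; positivity
  have hc60 : 0 < c6 := by rw [hc6]; positivity
  have r4 : 1 < 81 ^ 3 * 2 ^ 24 * τ / c4 := by rw [hτ, hc4]; norm_num
  have r6 : 1 < 81 ^ 3 * 2 ^ 16 * τ / c6 := by rw [hτ, hc6]; norm_num
  have rs : 1 < τ / 20736 / (1 + 0.2575) ^ 25 := by rw [hτ]; norm_num
  have e4 := lin_lt _ 1 r4
  have e6 := lin_lt _ 2 r6
  have es := lin_lt _ (8 * (1 + 0.2575) ^ 25) rs
  have hdiv : Filter.Tendsto (fun n : ℕ => n / 25) Filter.atTop Filter.atTop := by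
    apply Filter.tendsto_atTop_atTop.2
    intro b
    refine ⟨25 * b, fun a ha => ?_⟩
    omega
  have key : ∀ᶠ t : ℕ in Filter.atTop, (1 + 0.2575 : ℝ) ^ (25 * t + 25) < (ff (25 * t) : ℝ) := by
    filter_upwards [e4, e6, es, Filter.eventually_gt_atTop 0] with t h4 h6 hs ht
    obtain ⟨B, N4, N6, hB, hb, hn4, hn6, himp⟩ := h t ht
    have hT : (0:ℝ) < 25 * t + 1 := by positivity
    have hBτ : τ ^ t ≤ (25 * t + 1) * B := by
      rw [hτ, div_pow, div_le_iff₀ (by positivity)]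
      calc ((25:ℝ) ^ 25) ^ t = 25 ^ (25 * t) := by rw [pow_mul]
        _ ≤ _ := hb
        _ = _ := by rw [mul_pow, ← pow_mul, ← pow_mul]; ring
    have hN4 : N4 ≤ c4 ^ t := by
      rw [hc4, div_pow, le_div_iff₀ (by positivity)]
      calc N4 * ((4 / 9 : ℝ) ^ 32) ^ t = N4 * (4 / 9) ^ (4 * (8 * t)) := by
            rw [← pow_mul]; congr 2; ring
        _ ≤ _ := hn4
        _ = _ := by rw [pow_mul]
    have hN6 : N6 ≤ c6 ^ t := by
      rw [hc6, div_pow, le_div_iff₀ (by positivity)]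
      calc N6 * ((4 / 7 : ℝ) ^ 32) ^ t = N6 * (4 / 7) ^ (4 * (8 * t)) := by
            rw [← pow_mul]; congr 2; ring
        _ ≤ _ := hn6
        _ = _ := by rw [pow_mul]
    have i4 : 8 * N4 ≤ (81 ^ t) ^ 3 * B * (2 ^ (8 * t + 1)) ^ 3 := by
      have q1 : (25 * (t:ℝ) + 1) * c4 ^ t ≤ (81 ^ 3 * 2 ^ 24) ^ t * τ ^ t := by
        rw [one_mul, div_pow, lt_div_iff₀ (by positivity)] at h4
        rw [← mul_pow]; exact h4.le
      have q2 : (25 * (t:ℝ) + 1) * c4 ^ t ≤ (25 * (t:ℝ) + 1) * ((81 ^ 3 * 2 ^ 24) ^ t * B) := by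
        calc _ ≤ _ := q1
          _ ≤ (81 ^ 3 * 2 ^ 24) ^ t * ((25 * t + 1) * B) := by gcongr
          _ = _ := by ring
      have q3 := le_of_mul_le_mul_left q2 hT
      calc 8 * N4 ≤ 8 * c4 ^ t := by gcongr
        _ ≤ 8 * ((81 ^ 3 * 2 ^ 24) ^ t * B) := by gcongr
        _ = (81 ^ t) ^ 3 * B * (2 ^ (8 * t + 1)) ^ 3 := by
          rw [mul_pow, ← pow_mul, ← pow_mul, ← pow_mul, ← pow_mul,
            show (8 * t + 1) * 3 = 24 * t + 3 by ring, pow_add, show t * 3 = 3 * t by ring]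
          ring
    have i6 : 8 * N6 ≤ (81 ^ t) ^ 3 * B * (2 ^ (8 * t + 1)) ^ 2 := by
      have q1 : 2 * (25 * (t:ℝ) + 1) * c6 ^ t ≤ (81 ^ 3 * 2 ^ 16) ^ t * τ ^ t := by
        rw [div_pow, lt_div_iff₀ (by positivity)] at h6
        rw [← mul_pow]; exact h6.le
      have q2 : (25 * (t:ℝ) + 1) * (2 * c6 ^ t) ≤ (25 * (t:ℝ) + 1) * ((81 ^ 3 * 2 ^ 16) ^ t * B) := by
        calc _ = _ := by ring
          _ ≤ _ := q1
          _ ≤ (81 ^ 3 * 2 ^ 16) ^ t * ((25 * t + 1) * B) := by gcongr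
          _ = _ := by ring
      have q3 := le_of_mul_le_mul_left q2 hT
      calc 8 * N6 ≤ 8 * c6 ^ t := by gcongr
        _ = 4 * (2 * c6 ^ t) := by ring
        _ ≤ 4 * ((81 ^ 3 * 2 ^ 16) ^ t * B) := by gcongr
        _ = (81 ^ t) ^ 3 * B * (2 ^ (8 * t + 1)) ^ 2 := by
          rw [mul_pow, ← pow_mul, ← pow_mul, ← pow_mul, ← pow_mul,
            show (8 * t + 1) * 2 = 16 * t + 2 by ring, pow_add, show t * 3 = 3 * t by ring]
          ring
    have hfin := himp i4 i6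
    -- final
    have hτf : τ ^ t ≤ (25 * t + 1) * (8 * 20736 ^ t * (ff (25 * t) : ℝ)) := by
      calc _ ≤ _ := hBτ
        _ ≤ (25 * t + 1) * (4 * 81 ^ t * 2 ^ (8 * t + 1) * (ff (25 * t) : ℝ)) := by gcongr
        _ = _ := by
          rw [show (20736:ℝ) = 81 * 2 ^ 8 by norm_num, mul_pow, ← pow_mul, pow_add]; ring
    have hs2 : 8 * (1 + 0.2575 : ℝ) ^ 25 * (25 * t + 1) * (20736 ^ t * ((1 + 0.2575) ^ 25) ^ t) < τ ^ t := by
      rw [div_div, div_pow, lt_div_iff₀ (by positivity), mul_pow] at hs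
      exact hs
    have hs3 := hs2.trans_le hτf
    have hpos : (0:ℝ) < (25 * t + 1) * (8 * 20736 ^ t) := by positivity
    have : (25 * (t:ℝ) + 1) * (8 * 20736 ^ t) * (1 + 0.2575 : ℝ) ^ (25 * t + 25) <
        (25 * (t:ℝ) + 1) * (8 * 20736 ^ t) * (ff (25 * t) : ℝ) := by
      calc _ = 8 * (1 + 0.2575 : ℝ) ^ 25 * (25 * t + 1) * (20736 ^ t * ((1 + 0.2575) ^ 25) ^ t) := by
            rw [pow_add, pow_mul]; ring
        _ < _ := hs3
        _ = _ := by ring
    exact lt_of_mul_lt_mul_left this hpos.le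
  filter_upwards [hdiv.eventually key] with n hn
  calc (1 + 0.2575 : ℝ) ^ n ≤ (1 + 0.2575 : ℝ) ^ (25 * (n / 25) + 25) :=
        pow_le_pow_right₀ (by norm_num) (by omega)
    _ < (ff (25 * (n / 25)) : ℝ) := hn
    _ ≤ (ff n : ℝ) := by exact_mod_cast hmono (by omega)

theorem li1 {n : ℕ} (a : Finset (Fin n)) :
    LinearIndependent (ZMod 2) (fun _ : Fin 1 => vec a) := by
  rw [linearIndependent_unique_iff]
  intro h
  have h1 : (vec a).2 = (0 : VV n).2 := by rw [← h]
  simp [vec] at h1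

theorem good_of {n r : ℕ} (k : ℕ) (g : VV n →ₗ[ZMod 2] WW r) (F : Finset (Finset (Fin n)))
    (hk : ∀ a ∈ F, #a = k) (h0 : ∀ a ∈ F, g (vec a) = 0)
    (h1 : ∀ a ∈ F, ¬ ∃ e ⊆ a, e.Nonempty ∧ g (dvec e) = 0)
    (h2 : ∀ p ∈ Q4 n k, (∀ i, g (vec (p i)) = 0) → ¬ ∀ i, p i ∈ F)
    (h3 : ∀ p ∈ Q6 n k, (∀ i, g (vec (p i)) = 0) → ¬ ∀ i, p i ∈ F) : Good F := by
  classical
  -- the triple condition
  have ht : ∀ a ∈ F, ∀ b ∈ F, ∀ c ∈ F, a ∪ b = a ∪ c → b = c := by
    intro a ha b hb c hc h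
    by_contra hbc
    apply h1 a ha
    refine ⟨symmDiff b c, ?_, ?_, ?_⟩
    · intro x hx
      rw [Finset.mem_symmDiff] at hx
      have hx2 := Finset.ext_iff.1 h x
      rw [Finset.mem_union, Finset.mem_union] at hx2
      tauto
    · rw [Finset.nonempty_iff_ne_empty]
      intro h4
      exact hbc (symmDiff_eq_bot.1 h4)
    · rw [dvec_symmDiff, map_add, h0 b hb, h0 c hc, add_zero]
  intro a ha b hb c hc d hd hab hcd h
  by_cases hac : a = c
  · left
    refine ⟨hac, ?_⟩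
    rw [← hac] at h
    exact ht a ha b hb d hd h
  by_cases had : a = d
  · right
    refine ⟨had, ?_⟩
    rw [← had, Finset.union_comm c a] at h
    exact ht a ha b hb c hc h
  by_cases hbc : b = c
  · right
    refine ⟨?_, hbc⟩
    rw [← hbc, Finset.union_comm a b] at h
    exact ht b hb a ha d hd h
  by_cases hbd : b = d
  · left
    refine ⟨?_, hbd⟩
    rw [← hbd, Finset.union_comm a b, Finset.union_comm c b] at h
    exact ht b hb a ha c hc h
  exfalso
  have hinj : Function.Injective ![a, b, c, d] := by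
    intro i j hij
    fin_cases i <;> fin_cases j <;> simp_all
  have hF : ∀ i, (![a, b, c, d] : Fin 4 → Finset (Fin n)) i ∈ F := by
    intro i
    fin_cases i <;> simp [ha, hb, hc, hd]
  by_cases hs : symmDiff a b = symmDiff c d
  · refine h3 ![a, b, c, d] ?_ (fun i => h0 _ (hF i)) hF
    rw [Q6, Finset.mem_filter]
    exact ⟨Finset.mem_univ _, fun j => hk _ (hF j), hinj, h, hs⟩
  · refine h2 ![a, b, c, d] ?_ (fun i => h0 _ (hF i)) hF
    rw [Q4, Finset.mem_filter]
    exact ⟨Finset.mem_univ _, fun j => hk _ (hF j), hinj, h, hs⟩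

theorem stage (n k s r : ℕ) (hs : 0 < s) (hr : k + 1 ≤ r)
    (h4 : 8 * (#(Q4 n k) : ℝ) ≤ (s : ℝ) ^ 3 * (n.choose k : ℝ) * (2 ^ r) ^ 3)
    (h6 : 8 * (#(Q6 n k) : ℝ) ≤ (s : ℝ) ^ 3 * (n.choose k : ℝ) * (2 ^ r) ^ 2) :
    ∃ F : Finset (Finset (Fin n)), Good F ∧ (n.choose k : ℝ) ≤ 4 * s * 2 ^ r * #F := by
  classical
  haveI : Finite (VV n →ₗ[ZMod 2] WW r) := DFunLike.finite _
  letI : Fintype (VV n →ₗ[ZMod 2] WW r) := Fintype.ofFinite _
  set N : ℝ := (Fintype.card (VV n →ₗ[ZMod 2] WW r) : ℝ) with hN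
  have hNpos : 0 < N := by
    rw [hN]
    exact_mod_cast Fintype.card_pos
  set w : ℝ := 2 ^ r with hw
  have hwpos : 0 < w := by positivity
  have hWc : (Fintype.card (WW r) : ℝ) = w := by
    rw [hw]
    simp [WW]
  let T : Finset (Finset (Fin n)) := Finset.powersetCard k Finset.univ
  have hT : (#T : ℝ) = (n.choose k : ℝ) := by
    simp [T]
  let C : (VV n →ₗ[ZMod 2] WW r) → Finset (Finset (Fin n)) := fun g => {a ∈ T | g (vec a) = 0}
  let Bd : (VV n →ₗ[ZMod 2] WW r) → Finset (Finset (Fin n)) := fun g =>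
    {a ∈ C g | ∃ e ⊆ a, e.Nonempty ∧ g (dvec e) = 0}
  let E4 : (VV n →ₗ[ZMod 2] WW r) → Finset (Fin 4 → Finset (Fin n)) := fun g =>
    {p ∈ Q4 n k | ∀ i, g (vec (p i)) = 0}
  let E6 : (VV n →ₗ[ZMod 2] WW r) → Finset (Fin 4 → Finset (Fin n)) := fun g =>
    {p ∈ Q6 n k | ∀ i, g (vec (p i)) = 0}
  have s1 : (∑ g, (#(C g) : ℝ)) * w = #T * N := by
    have e1 : (∑ g, (#(C g) : ℝ)) = ∑ a ∈ T, (#{g : VV n →ₗ[ZMod 2] WW r | g (vec a) = 0} : ℝ) := by
      simp only [C, Finset.card_filter]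
      push_cast
      exact Finset.sum_comm
    rw [e1, Finset.sum_mul]
    have e2 : ∀ a ∈ T, (#{g : VV n →ₗ[ZMod 2] WW r | g (vec a) = 0} : ℝ) * w = N := by
      intro a _
      have h := unif (W := WW r) 1 _ (li1 a)
      have h' : (#{g : VV n →ₗ[ZMod 2] WW r | ∀ i : Fin 1, g (vec a) = 0} : ℝ)
          * (Fintype.card (WW r) : ℝ) ^ 1 = N := by
        rw [hN]
        exact_mod_cast h
      rw [hWc, pow_one] at h'
      simpa using h'
    rw [Finset.sum_congr rfl e2, Finset.sum_const, nsmul_eq_mul]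
  have s2 : (∑ g, (#(Bd g) : ℝ)) * w ^ 2 ≤ #T * 2 ^ k * N := by
    have e1 : ∀ g, (#(Bd g) : ℝ) ≤ ∑ a ∈ T, ∑ e ∈ a.powerset.erase ∅,
        (if g (vec a) = 0 ∧ g (dvec e) = 0 then (1 : ℝ) else 0) := by
      intro g
      have e2 : (#(Bd g) : ℝ) = ∑ a ∈ T, (if a ∈ Bd g then (1 : ℝ) else 0) := by
        rw [Finset.sum_ite_mem, Finset.sum_const, nsmul_eq_mul, mul_one]
        congr 2
        exact (Finset.inter_eq_right.2 ((Finset.filter_subset _ _).trans
          (Finset.filter_subset _ _))).symm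
      rw [e2]
      refine Finset.sum_le_sum fun a _ => ?_
      split_ifs with h
      · obtain ⟨ha, e, he1, he2, he3⟩ := Finset.mem_filter.1 h
        have ha2 := (Finset.mem_filter.1 ha).2
        have hmem : e ∈ a.powerset.erase ∅ :=
          Finset.mem_erase.2 ⟨he2.ne_empty, Finset.mem_powerset.2 he1⟩
        refine le_trans (le_of_eq ?_) (Finset.single_le_sum (f := fun e =>
          (if g (vec a) = 0 ∧ g (dvec e) = 0 then (1 : ℝ) else 0)) (fun e _ => ?_) hmem)
        · simp only [ha2, he3, and_self, if_true]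
        · positivity
      · exact Finset.sum_nonneg fun e _ => by positivity
    have e3 : (∑ g, (#(Bd g) : ℝ)) ≤ ∑ a ∈ T, ∑ e ∈ a.powerset.erase ∅,
        (#{g : VV n →ₗ[ZMod 2] WW r | g (vec a) = 0 ∧ g (dvec e) = 0} : ℝ) := by
      refine (Finset.sum_le_sum fun g _ => e1 g).trans (le_of_eq ?_)
      rw [Finset.sum_comm]
      refine Finset.sum_congr rfl fun a _ => ?_
      rw [Finset.sum_comm]
      refine Finset.sum_congr rfl fun e _ => ?_
      rw [Finset.card_filter]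
      push_cast
      rfl
    have e4 : ∀ a ∈ T, ∀ e ∈ a.powerset.erase ∅,
        (#{g : VV n →ₗ[ZMod 2] WW r | g (vec a) = 0 ∧ g (dvec e) = 0} : ℝ) * w ^ 2 = N := by
      intro a _ e he
      have hne : e.Nonempty := Finset.nonempty_iff_ne_empty.2 (Finset.mem_erase.1 he).1
      have h := unif (W := WW r) 2 _ (li2 a e hne)
      have h' : (#{g : VV n →ₗ[ZMod 2] WW r | ∀ i : Fin 2, g ((![vec a, dvec e] : Fin 2 → VV n) i) = 0} : ℝ)
          * (Fintype.card (WW r) : ℝ) ^ 2 = N := by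
        rw [hN]
        exact_mod_cast h
      rw [hWc] at h'
      simpa [Fin.forall_fin_two] using h'
    calc (∑ g, (#(Bd g) : ℝ)) * w ^ 2 ≤ (∑ a ∈ T, ∑ e ∈ a.powerset.erase ∅,
        (#{g : VV n →ₗ[ZMod 2] WW r | g (vec a) = 0 ∧ g (dvec e) = 0} : ℝ)) * w ^ 2 :=
          mul_le_mul_of_nonneg_right e3 (by positivity)
      _ = ∑ a ∈ T, ∑ e ∈ a.powerset.erase ∅, N := by
          rw [Finset.sum_mul]
          refine Finset.sum_congr rfl fun a ha => ?_
          rw [Finset.sum_mul]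
          exact Finset.sum_congr rfl fun e he => e4 a ha e he
      _ ≤ ∑ a ∈ T, 2 ^ k * N := by
          refine Finset.sum_le_sum fun a ha => ?_
          rw [Finset.sum_const, nsmul_eq_mul]
          refine mul_le_mul_of_nonneg_right ?_ hNpos.le
          have h1 : #(a.powerset.erase ∅) ≤ 2 ^ k := by
            refine (Finset.card_erase_le).trans ?_
            rw [Finset.card_powerset, (Finset.mem_powersetCard.1 ha).2]
          exact_mod_cast h1
      _ = #T * 2 ^ k * N := by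
          rw [Finset.sum_const, nsmul_eq_mul]
          ring
  have s4 : (∑ g, (#(E4 g) : ℝ)) * w ^ 4 = #(Q4 n k) * N := by
    have e1 : (∑ g, (#(E4 g) : ℝ)) = ∑ p ∈ Q4 n k,
        (#{g : VV n →ₗ[ZMod 2] WW r | ∀ i, g (vec (p i)) = 0} : ℝ) := by
      simp only [E4, Finset.card_filter]
      push_cast
      exact Finset.sum_comm
    rw [e1, Finset.sum_mul]
    have e2 : ∀ p ∈ Q4 n k, (#{g : VV n →ₗ[ZMod 2] WW r | ∀ i, g (vec (p i)) = 0} : ℝ) * w ^ 4
        = N := by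
      intro p hp
      rw [Q4, Finset.mem_filter] at hp
      have h := unif (W := WW r) 4 _ (li4 p hp.2.2.1 hp.2.2.2.2)
      rw [← hWc, hN]
      exact_mod_cast h
    rw [Finset.sum_congr rfl e2, Finset.sum_const, nsmul_eq_mul]
  have s6 : (∑ g, (#(E6 g) : ℝ)) * w ^ 3 ≤ #(Q6 n k) * N := by
    have e1 : (∑ g, (#(E6 g) : ℝ)) = ∑ p ∈ Q6 n k,
        (#{g : VV n →ₗ[ZMod 2] WW r | ∀ i, g (vec (p i)) = 0} : ℝ) := by
      simp only [E6, Finset.card_filter]
      push_cast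
      exact Finset.sum_comm
    rw [e1, Finset.sum_mul]
    have e2 : ∀ p ∈ Q6 n k, (#{g : VV n →ₗ[ZMod 2] WW r | ∀ i, g (vec (p i)) = 0} : ℝ) * w ^ 3
        ≤ N := by
      intro p hp
      rw [Q6, Finset.mem_filter] at hp
      have h := unif (W := WW r) 3 _ (li3 (fun i => p (Fin.castSucc i))
        (hp.2.2.1.comp (Fin.castSucc_injective 3)))
      have h' : (#{g : VV n →ₗ[ZMod 2] WW r | ∀ i : Fin 3, g (vec (p (Fin.castSucc i))) = 0} : ℝ)
          * (Fintype.card (WW r) : ℝ) ^ 3 = N := by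
        rw [hN]
        exact_mod_cast h
      rw [hWc] at h'
      rw [← h']
      refine mul_le_mul_of_nonneg_right ?_ (by positivity)
      have h5 : #{g : VV n →ₗ[ZMod 2] WW r | ∀ i, g (vec (p i)) = 0} ≤
          #{g : VV n →ₗ[ZMod 2] WW r | ∀ i : Fin 3, g (vec (p (Fin.castSucc i))) = 0} := by
        refine Finset.card_le_card ?_
        intro g hg
        rw [Finset.mem_filter] at hg ⊢
        exact ⟨Finset.mem_univ _, fun i => hg.2 _⟩
      exact_mod_cast h5
    refine (Finset.sum_le_sum e2).trans (le_of_eq ?_)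
    rw [Finset.sum_const, nsmul_eq_mul]
  -- the average
  have hB : (0 : ℝ) ≤ #T := Nat.cast_nonneg _
  have hkw : 2 * (2 : ℝ) ^ k ≤ w := by
    rw [hw, ← pow_succ']
    exact pow_le_pow_right₀ (by norm_num) hr
  have key : ∃ g, (s : ℝ) ^ 3 * #T / (4 * w) ≤
      (s : ℝ) ^ 3 * (#(C g) - #(Bd g)) - #(E4 g) - #(E6 g) := by
    by_contra hcon
    push Not at hcon
    have hlt : ∑ g : VV n →ₗ[ZMod 2] WW r,
        ((s : ℝ) ^ 3 * (#(C g) - #(Bd g)) - #(E4 g) - #(E6 g)) <
        ∑ _g : VV n →ₗ[ZMod 2] WW r, (s : ℝ) ^ 3 * #T / (4 * w) :=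
      Finset.sum_lt_sum_of_nonempty Finset.univ_nonempty fun g _ => hcon g
    rw [Finset.sum_const, Finset.card_univ, nsmul_eq_mul, ← hN] at hlt
    simp only [Finset.sum_sub_distrib, ← Finset.mul_sum] at hlt
    set sC := ∑ g, (#(C g) : ℝ)
    set sB := ∑ g, (#(Bd g) : ℝ)
    set sE4 := ∑ g, (#(E4 g) : ℝ)
    set sE6 := ∑ g, (#(E6 g) : ℝ)
    have t1 : sC = #T * N / w := by
      rw [eq_div_iff hwpos.ne', s1]
    have t2 : sB ≤ #T * N / (2 * w) := by
      rw [le_div_iff₀ (by positivity)]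
      have h1 : sB * w ^ 2 ≤ #T * N * (w / 2) := by
        refine s2.trans ?_
        have : #T * 2 ^ k * N = #T * N * 2 ^ k := by ring
        rw [this]
        exact mul_le_mul_of_nonneg_left (by linarith) (by positivity)
      have h2 : sB * (2 * w) * (w / 2) ≤ #T * N * (w / 2) := by
        have : sB * (2 * w) * (w / 2) = sB * w ^ 2 := by ring
        rw [this]
        exact h1
      exact le_of_mul_le_mul_right h2 (by positivity)
    have hs3 : (0 : ℝ) < (s : ℝ) ^ 3 := by positivity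
    have t4 : sE4 ≤ (s : ℝ) ^ 3 * #T * N / (8 * w) := by
      rw [le_div_iff₀ (by positivity)]
      rw [← hT] at h4
      have h5 : sE4 * (8 * w) * w ^ 3 ≤ (s : ℝ) ^ 3 * #T * N * w ^ 3 := by
        have : sE4 * (8 * w) * w ^ 3 = 8 * (sE4 * w ^ 4) := by ring
        rw [this, s4]
        have := mul_le_mul_of_nonneg_right h4 hNpos.le
        linarith
      exact le_of_mul_le_mul_right h5 (by positivity)
    have t6 : sE6 ≤ (s : ℝ) ^ 3 * #T * N / (8 * w) := by
      rw [le_div_iff₀ (by positivity)]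
      rw [← hT] at h6
      have h5 : sE6 * (8 * w) * w ^ 2 ≤ (s : ℝ) ^ 3 * #T * N * w ^ 2 := by
        have e : sE6 * (8 * w) * w ^ 2 = 8 * (sE6 * w ^ 3) := by ring
        rw [e]
        have := mul_le_mul_of_nonneg_right h6 hNpos.le
        linarith
      exact le_of_mul_le_mul_right h5 (by positivity)
    have t7 : (s : ℝ) ^ 3 * sB ≤ (s : ℝ) ^ 3 * (#T * N / (2 * w)) :=
      mul_le_mul_of_nonneg_left t2 hs3.le
    rw [t1] at hlt
    have t8 : N * ((s : ℝ) ^ 3 * #T / (4 * w)) = (s : ℝ) ^ 3 * (#T * N / w) -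
        (s : ℝ) ^ 3 * (#T * N / (2 * w)) - (s : ℝ) ^ 3 * #T * N / (8 * w)
        - (s : ℝ) ^ 3 * #T * N / (8 * w) := by
      field_simp
      ring
    rw [t8] at hlt
    linarith
  obtain ⟨g, hg⟩ := key
  have hinj : ∀ p ∈ E4 g ∪ E6 g, Function.Injective p := by
    intro p hp
    rcases Finset.mem_union.1 hp with h | h
    · have h2 := (Finset.mem_filter.1 h).1
      rw [Q4, Finset.mem_filter] at h2
      exact h2.2.2.1
    · have h2 := (Finset.mem_filter.1 h).1
      rw [Q6, Finset.mem_filter] at h2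
      exact h2.2.2.1
  obtain ⟨F, hFG, hF1, hF2⟩ := hyp (C g \ Bd g) (E4 g ∪ E6 g) hinj s hs
  refine ⟨F, good_of k g F ?_ ?_ ?_ ?_ ?_, ?_⟩
  · intro a ha
    have h1 := (Finset.mem_sdiff.1 (hFG ha)).1
    have h2 := (Finset.mem_filter.1 h1).1
    exact (Finset.mem_powersetCard.1 h2).2
  · intro a ha
    have h1 := (Finset.mem_sdiff.1 (hFG ha)).1
    exact (Finset.mem_filter.1 h1).2
  · intro a ha hex
    have h1 := Finset.mem_sdiff.1 (hFG ha)
    exact h1.2 (Finset.mem_filter.2 ⟨h1.1, hex⟩)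
  · intro p hp h0
    exact hF2 p (Finset.mem_union_left _ (Finset.mem_filter.2 ⟨hp, h0⟩))
  · intro p hp h0
    exact hF2 p (Finset.mem_union_right _ (Finset.mem_filter.2 ⟨hp, h0⟩))
  · have h1 : (#(C g \ Bd g) : ℝ) = #(C g) - #(Bd g) := by
      rw [Finset.cast_card_sdiff (Finset.filter_subset _ _)]
    have h2 : (#(E4 g ∪ E6 g) : ℝ) ≤ #(E4 g) + #(E6 g) := by
      exact_mod_cast Finset.card_union_le _ _
    rw [h1] at hF1
    have h3 : (s : ℝ) ^ 3 * #T / (4 * w) ≤ (s : ℝ) ^ 4 * #F := by linarith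
    rw [div_le_iff₀ (by positivity)] at h3
    rw [← hT]
    have hs3 : (0 : ℝ) < (s : ℝ) ^ 3 := by positivity
    have h4' : (s : ℝ) ^ 3 * #T ≤ (s : ℝ) ^ 3 * (4 * s * w * #F) := by
      calc (s : ℝ) ^ 3 * #T ≤ (s : ℝ) ^ 4 * #F * (4 * w) := h3
        _ = (s : ℝ) ^ 3 * (4 * s * w * #F) := by ring
    exact le_of_mul_le_mul_left h4' hs3

theorem main25 (t : ℕ) (ht : 0 < t) : ∃ B N4 N6 : ℝ, 0 < B ∧
      (25 : ℝ) ^ (25 * t) ≤ (25 * t + 1) * B * 8 ^ (8 * t) * 17 ^ (17 * t) ∧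
      N4 * (4 / 9) ^ (4 * (8 * t)) ≤ (1 + (2 * (4 / 9) + (4 / 9) ^ 2) ^ 2) ^ (25 * t) ∧
      N6 * (4 / 7) ^ (4 * (8 * t)) ≤ (1 + 4 * (4 / 7) ^ 2 + (4 / 7) ^ 4) ^ (25 * t) ∧
      (8 * N4 ≤ (81 ^ t) ^ 3 * B * (2 ^ (8 * t + 1)) ^ 3 →
       8 * N6 ≤ (81 ^ t) ^ 3 * B * (2 ^ (8 * t + 1)) ^ 2 →
        B ≤ 4 * 81 ^ t * 2 ^ (8 * t + 1) * (f (25 * t) : ℝ)) := by
  refine ⟨((25 * t).choose (8 * t) : ℝ), #(Q4 (25 * t) (8 * t)), #(Q6 (25 * t) (8 * t)), ?_,
    bin t, cnt4 _ _ _ (by norm_num), cnt6 _ _ _ (by norm_num), fun h4 h6 => ?_⟩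
  · exact_mod_cast Nat.choose_pos (by omega)
  · obtain ⟨F, hF, hc⟩ := stage (25 * t) (8 * t) (81 ^ t) (8 * t + 1) (by positivity) le_rfl
      (by push_cast; exact h4) (by push_cast; exact h6)
    have h1 : (#F : ℝ) ≤ (f (25 * t) : ℝ) := by exact_mod_cast f_ge _ F hF
    push_cast at hc
    refine hc.trans ?_
    exact mul_le_mul_of_nonneg_left h1 (by positivity)

/-- For all sufficiently large `n` one has `f(n) > (1 + 0.2575)^n`. -/
theorem result : ∀ᶠ n : ℕ in Filter.atTop, (1 + 0.2575 : ℝ) ^ n < (f n : ℝ) :=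
  fin f f_mono main25

end Pool.Agent.Results.MP_70e206_co.UnionFreeLower
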